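import Mathlib

/-!
# Abelian discriminating groups

We characterise all abelian groups `A` which are discriminating (i.e. `A` discriminates `A × A`):
these are exactly the abelian groups without a nonzero finite fully invariant subgroup.
We also spell the criterion out prime by prime in terms of heights.
-/

set_option autoImplicit false

namespace Pool.Agent.Results.MP_ef4983_al.AbelianDiscriminating

universe u v

/-- `G` discriminates `H` (additive notation): for every finite set of non-identity elements of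
`H` there is a homomorphism `H → G` under which no element of the set is sent to the identity. -/
def Discriminates (G : Type u) (H : Type v) [AddGroup G] [AddGroup H] : Prop :=
  ∀ S : Finset H, (∀ h ∈ S, h ≠ 0) → ∃ φ : H →+ G, ∀ h ∈ S, φ h ≠ 0

/-- `G` is discriminating: it discriminates its direct square. -/
def IsDiscriminating (G : Type u) [AddGroup G] : Prop :=
  Discriminates G (G × G)

variable {A : Type u} [AddCommGroup A]

/-- A subgroup is fully invariant if every endomorphism of the group maps it into itself. -/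
def IsFullyInvariant (F : AddSubgroup A) : Prop :=
  ∀ α : A →+ A, ∀ x ∈ F, α x ∈ F

/-- The set of all images of `x` under the endomorphisms of `A`. -/
def endOrbit (x : A) : Set A := {y | ∃ α : A →+ A, α x = y}

/-- The elements `z` with `p z = 0` that are divisible by `p ^ k` in `A`. -/
def socleHeight (A : Type u) [AddCommGroup A] (p k : ℕ) : Set A :=
  {z | p • z = 0 ∧ ∃ y, p ^ k • y = z}

/-- The maximal divisible subgroup of the `p`-primary component of `A`: the subgroup generated by
all divisible subgroups consisting of elements of `p`-power order. -/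
def divPart (A : Type u) [AddCommGroup A] (p : ℕ) : AddSubgroup A :=
  sSup {D : AddSubgroup A | (∀ x ∈ D, ∃ n : ℕ, p ^ n • x = 0) ∧
    ∀ n : ℕ, n ≠ 0 → ∀ x ∈ D, ∃ y ∈ D, n • y = x}

/-- The evaluation homomorphism at `x`. -/
def evalHom (x : A) : (A →+ A) →+ A where
  toFun α := α x
  map_zero' := rfl
  map_add' _ _ := rfl

/-- The fully invariant subgroup generated by `x`. -/
def orbitSubgroup (x : A) : AddSubgroup A := (evalHom x).range

theorem coe_orbitSubgroup (x : A) : (orbitSubgroup x : Set A) = endOrbit x := rfl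

theorem mem_orbitSubgroup {x y : A} : y ∈ orbitSubgroup x ↔ ∃ α : A →+ A, α x = y := Iff.rfl

theorem self_mem_orbitSubgroup (x : A) : x ∈ orbitSubgroup x :=
  ⟨AddMonoidHom.id A, rfl⟩

theorem isFullyInvariant_orbitSubgroup (x : A) : IsFullyInvariant (orbitSubgroup x) := by
  rintro β y ⟨α, rfl⟩
  exact ⟨β.comp α, rfl⟩

theorem orbitSubgroup_le {F : AddSubgroup A} (hF : IsFullyInvariant F) {x : A} (hx : x ∈ F) :
    orbitSubgroup x ≤ F := by
  rintro y ⟨α, rfl⟩
  exact hF α x hx

/-- A discriminating abelian group has no nonzero finite fully invariant subgroup. -/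
theorem no_finite_of_discriminating (hA : IsDiscriminating A) (F : AddSubgroup A)
    (hF : IsFullyInvariant F) (hfin : Finite F) : F = ⊥ := by
  classical
  have hFF : ((F.prod F : AddSubgroup (A × A)) : Set (A × A)).Finite := by
    rw [AddSubgroup.coe_prod]
    exact (Set.toFinite (F : Set A)).prod (Set.toFinite (F : Set A))
  obtain ⟨φ, hφ⟩ := hA (hFF.toFinset.filter (fun s => s ≠ 0)) (by
    intro h hh
    exact (Finset.mem_filter.mp hh).2)
  have hker : ∀ s : A × A, s.1 ∈ F → s.2 ∈ F → φ s = 0 → s = 0 := by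
    intro s h1 h2 h0
    by_contra hs
    exact hφ s (Finset.mem_filter.mpr ⟨hFF.mem_toFinset.mpr ⟨h1, h2⟩, hs⟩) h0
  have hmap : ∀ a ∈ F, ∀ b ∈ F, φ (a, b) ∈ F := by
    intro a ha b hb
    have h1 : φ (a, b) = (φ.comp (AddMonoidHom.inl A A)) a + (φ.comp (AddMonoidHom.inr A A)) b := by
      simp [← map_add]
    rw [h1]
    exact F.add_mem (hF _ a ha) (hF _ b hb)
  let g : F × F → F := fun s => ⟨φ (s.1.1, s.2.1), hmap _ s.1.2 _ s.2.2⟩
  have hg : Function.Injective g := by
    rintro ⟨a, b⟩ ⟨c, d⟩ h
    have h' : φ (a.1, b.1) = φ (c.1, d.1) := congrArg Subtype.val h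
    have h0 : φ (a.1 - c.1, b.1 - d.1) = 0 := by
      have : ((a.1 - c.1, b.1 - d.1) : A × A) = (a.1, b.1) - (c.1, d.1) := rfl
      rw [this, map_sub, h', sub_self]
    have := hker _ (F.sub_mem a.2 c.2) (F.sub_mem b.2 d.2) h0
    have h1 : a.1 - c.1 = 0 := congrArg Prod.fst this
    have h2 : b.1 - d.1 = 0 := congrArg Prod.snd this
    exact Prod.ext (Subtype.ext (sub_eq_zero.mp h1)) (Subtype.ext (sub_eq_zero.mp h2))
  have hcard : Nat.card F * Nat.card F ≤ Nat.card F := by
    rw [← Nat.card_prod]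
    exact Nat.card_le_card_of_injective g hg
  have hpos : 0 < Nat.card F := Nat.card_pos
  have h1 : Nat.card F ≤ 1 := by
    by_contra hlt
    push Not at hlt
    nlinarith
  exact AddSubgroup.eq_bot_of_card_le F h1

/-- An abelian group without nonzero finite fully invariant subgroups is discriminating. -/
theorem discriminating_of_no_finite
    (hA : ∀ F : AddSubgroup A, IsFullyInvariant F → Finite F → F = ⊥) : IsDiscriminating A := by
  classical
  intro S hS
  by_contra hcon
  push Not at hcon
  -- the evaluation map at `s`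
  let ev : A × A → ((A →+ A) × (A →+ A) →+ A) := fun s =>
    ((evalHom s.1).comp (AddMonoidHom.fst _ _)) + ((evalHom s.2).comp (AddMonoidHom.snd _ _))
  have hev : ∀ s : A × A, ∀ αβ : (A →+ A) × (A →+ A), ev s αβ = αβ.1 s.1 + αβ.2 s.2 := by
    intro s αβ
    rfl
  let K : A × A → Submodule ℤ ((A →+ A) × (A →+ A)) := fun s => (ev s).toIntLinearMap.ker
  have hcov : ⋃ s ∈ S, (K s : Set ((A →+ A) × (A →+ A))) = Set.univ := by
    apply Set.eq_univ_of_forall
    intro αβ
    obtain ⟨s, hs, h0⟩ := hcon (αβ.1.comp (AddMonoidHom.fst A A) + αβ.2.comp (AddMonoidHom.snd A A))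
    refine Set.mem_iUnion₂.mpr ⟨s, hs, ?_⟩
    change (ev s).toIntLinearMap αβ = 0
    simpa [hev] using h0
  obtain ⟨s, hs, hfi⟩ := Submodule.exists_finiteIndex_of_cover hcov
  -- the image of `ev s` is finite
  have hker : (K s).toAddSubgroup = (ev s).ker := by
    ext x
    simp [K]
  rw [hker] at hfi
  have hfr : Finite (ev s).range := by
    have h1 : Finite (((A →+ A) × (A →+ A)) ⧸ (ev s).ker) :=
      AddSubgroup.finite_quotient_of_finiteIndex
    exact Finite.of_equiv _ (QuotientAddGroup.quotientKerEquivRange (ev s)).toEquiv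
  have key : ∀ a : A, a ≠ 0 → orbitSubgroup a ≤ (ev s).range → False := by
    intro a ha hle
    have hfo : Finite (orbitSubgroup a) :=
      Finite.of_injective (AddSubgroup.inclusion hle) (AddSubgroup.inclusion_injective hle)
    have := hA _ (isFullyInvariant_orbitSubgroup a) hfo
    have h2 := self_mem_orbitSubgroup a
    rw [this] at h2
    exact ha ((AddSubgroup.mem_bot).mp h2)
  have hs0 := hS s hs
  by_cases h1 : s.1 = 0
  · have h2 : s.2 ≠ 0 := by
      intro h2
      exact hs0 (Prod.ext h1 h2)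
    refine key s.2 h2 ?_
    rintro y ⟨α, rfl⟩
    exact ⟨(0, α), by simp [hev, evalHom]⟩
  · refine key s.1 h1 ?_
    rintro y ⟨α, rfl⟩
    exact ⟨(α, 0), by simp [hev, evalHom]⟩


/-! ### Orbits of elements of order `p` -/

/-- The orbit of an element of order dividing `p` and divisible by `p ^ k` stays in
`socleHeight A p k`. -/
theorem endOrbit_subset_socleHeight {p k : ℕ} {x : A} (hx : x ∈ socleHeight A p k) :
    endOrbit x ⊆ socleHeight A p k := by
  rintro y ⟨α, rfl⟩
  obtain ⟨h0, w, hw⟩ := hx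
  refine ⟨?_, α w, ?_⟩
  · rw [← map_nsmul, h0, map_zero]
  · rw [← map_nsmul, hw]


/-- If `y` has order exactly `q` modulo `q A`, then `A` maps onto `ZMod q` with `y ↦ 1`
(the cyclic group of order `q` is a direct summand of every group of exponent `q` containing it). -/
theorem exists_hom_zmod {q : ℕ} [NeZero q] (y : A)
    (hy : ∀ m : ℤ, (∃ a : A, (q : ℤ) • a = m • y) → (q : ℤ) ∣ m) :
    ∃ π : A →+ ZMod q, π y = 1 := by
  classical
  let N : AddSubgroup A := (zsmulAddGroupHom (α := A) (q : ℤ)).range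
  let f : ZMod q →+ A ⧸ N := ZMod.lift q ⟨zmultiplesHom (A ⧸ N) (QuotientAddGroup.mk y), by
    rw [zmultiplesHom_apply, ← QuotientAddGroup.mk_zsmul, QuotientAddGroup.eq_zero_iff]
    exact ⟨y, rfl⟩⟩
  have hf : Function.Injective f := by
    rw [ZMod.lift_injective]
    intro m hm
    rw [zmultiplesHom_apply, ← QuotientAddGroup.mk_zsmul, QuotientAddGroup.eq_zero_iff] at hm
    obtain ⟨a, ha⟩ := hm
    exact (ZMod.intCast_zmod_eq_zero_iff_dvd m q).mpr (hy m ⟨a, ha⟩)
  have hbaer : Module.Baer ℤ UnitAddCircle := Module.Baer.of_divisible _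
  obtain ⟨χ, hχ⟩ := hbaer.extension_property_addMonoidHom f hf (ZMod.toAddCircle (N := q))
  have hrange : ∀ a : A ⧸ N, χ a ∈ (ZMod.toAddCircle (N := q)).range := by
    intro a
    have h0 : q • χ a = 0 := by
      rw [← map_nsmul]
      induction a using QuotientAddGroup.induction_on with
      | H a =>
        have : q • (QuotientAddGroup.mk a : A ⧸ N) = 0 := by
          rw [← QuotientAddGroup.mk_nsmul, QuotientAddGroup.eq_zero_iff]
          exact ⟨a, by simp⟩
        rw [this, map_zero]
    obtain ⟨m, _, hm⟩ := (AddCircle.nsmul_eq_zero_iff (NeZero.pos q)).mp h0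
    refine ⟨(m : ZMod q), ?_⟩
    rw [ZMod.toAddCircle_natCast, ← hm, mul_one]
  let e := AddMonoidHom.ofInjective (ZMod.toAddCircle_injective q)
  refine ⟨e.symm.toAddMonoidHom.comp ((χ.codRestrict _ hrange).comp (QuotientAddGroup.mk' N)), ?_⟩
  have h1 : f 1 = QuotientAddGroup.mk y := by
    have : f ((1 : ℤ) : ZMod q) = _ := ZMod.lift_coe _ _ _
    simpa using this
  have h2 : χ (QuotientAddGroup.mk y) = ZMod.toAddCircle (1 : ZMod q) := by
    rw [← h1, ← hχ]
    rfl
  have h3 : (χ.codRestrict _ hrange) (QuotientAddGroup.mk y) = e 1 := by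
    apply Subtype.ext
    exact h2
  change e.symm ((χ.codRestrict _ hrange) (QuotientAddGroup.mk y)) = 1
  rw [h3, AddEquiv.symm_apply_apply]

/-- If `x` is of order `p` and exact height `k`, all elements of `socleHeight A p k` are images of
`x` under endomorphisms. -/
theorem socleHeight_subset_endOrbit {p k : ℕ} (hp : p.Prime) {x : A}
    (hx : x ∈ socleHeight A p k) (hx' : ¬ ∃ y, p ^ (k + 1) • y = x) :
    socleHeight A p k ⊆ endOrbit x := by
  rintro z ⟨hz, w, hw⟩
  obtain ⟨h0, y, hy⟩ := hx
  have : Fact p.Prime := ⟨hp⟩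
  have : NeZero (p ^ (k + 1)) := ⟨pow_ne_zero _ hp.ne_zero⟩
  have hyq : p ^ (k + 1) • y = 0 := by
    rw [pow_succ', mul_smul, hy, h0]
  have hwq : p ^ (k + 1) • w = 0 := by
    rw [pow_succ', mul_smul, hw, hz]
  obtain ⟨π, hπ⟩ := exists_hom_zmod (q := p ^ (k + 1)) y (by
    rintro m ⟨a, ha⟩
    let N : AddSubgroup A := (zsmulAddGroupHom (α := A) ((p ^ (k + 1) : ℕ) : ℤ)).range
    have h1 : ¬ p ^ k • (QuotientAddGroup.mk y : A ⧸ N) = 0 := by
      rw [← QuotientAddGroup.mk_nsmul, QuotientAddGroup.eq_zero_iff, hy]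
      rintro ⟨b, hb⟩
      exact hx' ⟨b, by rw [← natCast_zsmul]; exact hb⟩
    have h2 : p ^ (k + 1) • (QuotientAddGroup.mk y : A ⧸ N) = 0 := by
      rw [← QuotientAddGroup.mk_nsmul, hyq]
      rfl
    have h3 := addOrderOf_eq_prime_pow h1 h2
    have h4 : m • (QuotientAddGroup.mk y : A ⧸ N) = 0 := by
      rw [← QuotientAddGroup.mk_zsmul, QuotientAddGroup.eq_zero_iff, ← ha]
      exact ⟨a, rfl⟩
    have h5 := addOrderOf_dvd_iff_zsmul_eq_zero.mpr h4
    rwa [h3] at h5)
  let l : ZMod (p ^ (k + 1)) →+ A := ZMod.lift (p ^ (k + 1)) ⟨zmultiplesHom A w, by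
    rw [zmultiplesHom_apply, natCast_zsmul, hwq]⟩
  have hl : l 1 = w := by
    have : l ((1 : ℤ) : ZMod (p ^ (k + 1))) = _ := ZMod.lift_coe _ _ _
    simpa using this
  refine ⟨l.comp π, ?_⟩
  rw [← hy, map_nsmul, AddMonoidHom.comp_apply, hπ, hl, hw]

theorem divPart_map {p : ℕ} (α : A →+ A) {x : A} (hx : x ∈ divPart A p) : α x ∈ divPart A p := by
  have : divPart A p ≤ (divPart A p).comap α := by
    refine sSup_le ?_
    rintro D ⟨hD1, hD2⟩
    rw [← AddSubgroup.map_le_iff_le_comap]
    refine le_sSup ⟨?_, ?_⟩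
    · rintro _ ⟨x, hx, rfl⟩
      obtain ⟨n, hn⟩ := hD1 x hx
      exact ⟨n, by rw [← map_nsmul, hn, map_zero]⟩
    · rintro n hn _ ⟨x, hx, rfl⟩
      obtain ⟨y, hy, rfl⟩ := hD2 n hn x hx
      exact ⟨α y, ⟨y, hy, rfl⟩, by rw [← map_nsmul]⟩
  exact this hx

/-- `divPart A p` is divisible. -/
theorem divPart_divisible {p : ℕ} {n : ℕ} (hn : n ≠ 0) {x : A} (hx : x ∈ divPart A p) :
    ∃ y ∈ divPart A p, n • y = x := by
  have : divPart A p ≤ (divPart A p).map (nsmulAddMonoidHom (α := A) n) := by
    refine sSup_le ?_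
    rintro D ⟨hD1, hD2⟩ z hz
    obtain ⟨y, hy, hyz⟩ := hD2 n hn z hz
    have hle : D ≤ divPart A p := le_sSup ⟨hD1, hD2⟩
    exact ⟨y, hle hy, hyz⟩
  obtain ⟨y, hy, h⟩ := this hx
  exact ⟨y, hy, h⟩

/-- The elements of `divPart A p` have `p`-power order. -/
theorem divPart_torsion {p : ℕ} {x : A} (hx : x ∈ divPart A p) : ∃ n : ℕ, p ^ n • x = 0 := by
  let T : AddSubgroup A :=
    { carrier := {x | ∃ n : ℕ, p ^ n • x = 0}
      zero_mem' := ⟨0, by simp⟩
      add_mem' := by
        rintro a b ⟨n, hn⟩ ⟨m, hm⟩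
        refine ⟨n + m, ?_⟩
        have h1 : p ^ (n + m) • a = 0 := by
          rw [add_comm, pow_add, mul_smul, hn, smul_zero]
        have h2 : p ^ (n + m) • b = 0 := by
          rw [pow_add, mul_smul, hm, smul_zero]
        rw [smul_add, h1, h2, add_zero]
      neg_mem' := by
        rintro a ⟨n, hn⟩
        exact ⟨n, by rw [smul_neg, hn, neg_zero]⟩ }
  have : divPart A p ≤ T := sSup_le (fun D hD z hz => hD.1 z hz)
  exact this hx

/-- Any element of order `p` of the divisible part can be mapped to any element of order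
dividing `p` of the divisible part. -/
theorem divPart_subset_endOrbit {p : ℕ} (hp : p.Prime) {x : A} (hx0 : x ≠ 0) (hpx : p • x = 0) :
    {z | z ∈ divPart A p ∧ p • z = 0} ⊆ endOrbit x := by
  rintro z ⟨hz, hpz⟩
  have : Fact p.Prime := ⟨hp⟩
  have : NeZero p := ⟨hp.ne_zero⟩
  let D := divPart A p
  let _ : DivisibleBy D ℤ := divisibleByOfSMulRightSurj _ _ (by
    intro n hn
    rintro ⟨a, ha⟩
    obtain ⟨b, hb, hba⟩ := divPart_divisible (Int.natAbs_ne_zero.mpr hn) ha
    rcases Int.natAbs_eq n with h | h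
    · refine ⟨⟨b, hb⟩, Subtype.ext ?_⟩
      change n • b = a
      rw [h, natCast_zsmul, hba]
    · refine ⟨-⟨b, hb⟩, Subtype.ext ?_⟩
      change n • (-b) = a
      rw [h, neg_smul, smul_neg, neg_neg, natCast_zsmul, hba])
  have hbaer : Module.Baer ℤ D := Module.Baer.of_divisible _
  let f : ZMod p →+ A := ZMod.lift p ⟨zmultiplesHom A x, by
    rw [zmultiplesHom_apply, natCast_zsmul, hpx]⟩
  have hf : Function.Injective f := by
    rw [ZMod.lift_injective]
    intro m hm
    rw [zmultiplesHom_apply] at hm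
    have h3 := addOrderOf_eq_prime hpx hx0
    have h5 := addOrderOf_dvd_iff_zsmul_eq_zero.mpr hm
    rw [h3] at h5
    exact (ZMod.intCast_zmod_eq_zero_iff_dvd m p).mpr h5
  let g : ZMod p →+ D := ZMod.lift p ⟨zmultiplesHom D ⟨z, hz⟩, by
    rw [zmultiplesHom_apply, natCast_zsmul]
    exact Subtype.ext hpz⟩
  obtain ⟨h, hh⟩ := hbaer.extension_property_addMonoidHom f hf g
  have hf1 : f 1 = x := by
    have : f ((1 : ℤ) : ZMod p) = _ := ZMod.lift_coe _ _ _
    simpa using this
  have hg1 : g 1 = ⟨z, hz⟩ := by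
    have : g ((1 : ℤ) : ZMod p) = _ := ZMod.lift_coe _ _ _
    simpa using this
  refine ⟨D.subtype.comp h, ?_⟩
  have : h x = ⟨z, hz⟩ := by
    rw [← hf1, ← hg1, ← hh]
    rfl
  rw [AddMonoidHom.comp_apply, this]
  rfl

/-- Every nonzero finite fully invariant subgroup contains an element of prime order. -/
theorem exists_prime_order {F : AddSubgroup A} (hfin : Finite F) (hF : F ≠ ⊥) :
    ∃ p : ℕ, p.Prime ∧ ∃ x ∈ F, x ≠ 0 ∧ p • x = 0 := by
  obtain ⟨⟨y, hy⟩, hy0'⟩ := (AddSubgroup.ne_bot_iff_exists_ne_zero).mp hF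
  have hy0 : y ≠ 0 := fun h => hy0' (Subtype.ext h)
  have hfo : IsOfFinAddOrder (⟨y, hy⟩ : F) := isOfFinAddOrder_of_finite _
  have hne1 : addOrderOf (⟨y, hy⟩ : F) ≠ 1 := by
    intro h
    rw [AddMonoid.addOrderOf_eq_one_iff] at h
    exact hy0 (congrArg Subtype.val h)
  have hpos := hfo.addOrderOf_pos
  obtain ⟨p, hp, n, hn⟩ := Nat.exists_prime_and_dvd hne1
  refine ⟨p, hp, n • y, F.nsmul_mem hy n, ?_, ?_⟩
  · intro h
    have h1 : n • (⟨y, hy⟩ : F) = 0 := Subtype.ext h
    have h2 := addOrderOf_dvd_of_nsmul_eq_zero h1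
    have hn0 : 0 < n := by
      rcases Nat.eq_zero_or_pos n with h | h
      · rw [h, mul_zero] at hn
        omega
      · exact h
    have h3 := Nat.le_of_dvd hn0 h2
    rw [hn] at h3
    have := hp.two_le
    nlinarith
  · have h1 : addOrderOf (⟨y, hy⟩ : F) • (⟨y, hy⟩ : F) = 0 := addOrderOf_nsmul_eq_zero _
    rw [hn, mul_smul] at h1
    exact congrArg Subtype.val h1

theorem socleHeight_antitone {p k l : ℕ} (h : k ≤ l) : socleHeight A p l ⊆ socleHeight A p k := by
  rintro x ⟨h0, y, hy⟩
  refine ⟨h0, p ^ (l - k) • y, ?_⟩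
  rw [← mul_smul, ← pow_add, Nat.add_sub_cancel' h, hy]

/-- **Characterisation of the discriminating abelian groups.**  For an arbitrary abelian group `A`
the following are equivalent:
* `A` is discriminating;
* `A` has no nonzero finite fully invariant subgroup;
* every element of prime order has infinitely many images under the endomorphisms of `A`;
* for every prime `p`: (a) whenever `A` has an element of order `p` and height exactly `k`, the
  subgroup of elements of order dividing `p` and height at least `k` is infinite; (b) the maximal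
  divisible subgroup `D` of the `p`-primary component of `A` is zero or has infinite rank, that is
  `{z ∈ D | p z = 0}` is infinite; (c) every `x` with `p x = 0` of infinite `p`-height not lying
  in `D` has infinitely many images under the endomorphisms of `A`. -/
theorem result (A : Type u) [AddCommGroup A] : List.TFAE [
    IsDiscriminating A,
    ∀ F : AddSubgroup A, IsFullyInvariant F → Finite F → F = ⊥,
    ∀ p : ℕ, p.Prime → ∀ x : A, x ≠ 0 → p • x = 0 → (endOrbit x).Infinite,
    ∀ p : ℕ, p.Prime →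
      (∀ k : ℕ, (∃ x ∈ socleHeight A p k, x ∉ socleHeight A p (k + 1)) →
        (socleHeight A p k).Infinite) ∧
      (divPart A p = ⊥ ∨ {z | z ∈ divPart A p ∧ p • z = 0}.Infinite) ∧
      (∀ x : A, (∀ k : ℕ, x ∈ socleHeight A p k) → x ∉ divPart A p →
        (endOrbit x).Infinite)] := by
  tfae_have 1 → 2 := fun h => no_finite_of_discriminating h
  tfae_have 2 → 1 := fun h => discriminating_of_no_finite h
  tfae_have 2 → 3 := by
    intro h p hp x hx hpx hfin
    have hfo : Finite (orbitSubgroup x) := hfin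
    have := h _ (isFullyInvariant_orbitSubgroup x) hfo
    have h2 := self_mem_orbitSubgroup x
    rw [this] at h2
    exact hx ((AddSubgroup.mem_bot).mp h2)
  tfae_have 3 → 2 := by
    intro h F hF hfin
    by_contra hne
    obtain ⟨p, hp, x, hxF, hx0, hpx⟩ := exists_prime_order hfin hne
    refine h p hp x hx0 hpx ?_
    exact (Set.toFinite (F : Set A)).subset (orbitSubgroup_le hF hxF)
  tfae_have 3 → 4 := by
    intro h p hp
    refine ⟨?_, ?_, ?_⟩
    · rintro k ⟨x, hx, hx'⟩
      have hx0 : x ≠ 0 := by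
        rintro rfl
        exact hx' ⟨smul_zero _, 0, smul_zero _⟩
      exact (h p hp x hx0 hx.1).mono (endOrbit_subset_socleHeight hx)
    · by_cases hD : divPart A p = ⊥
      · exact Or.inl hD
      · right
        obtain ⟨⟨y, hy⟩, hy0'⟩ := (AddSubgroup.ne_bot_iff_exists_ne_zero).mp hD
        have hy0 : y ≠ 0 := fun h => hy0' (Subtype.ext h)
        have hex := divPart_torsion hy
        classical
        obtain ⟨n, hn1, hn2⟩ : ∃ n : ℕ, p ^ n • y ≠ 0 ∧ p ^ (n + 1) • y = 0 := by
          have hspec := Nat.find_spec hex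
          have hne : Nat.find hex ≠ 0 := by
            intro h0
            rw [h0, pow_zero, one_smul] at hspec
            exact hy0 hspec
          obtain ⟨n, hn⟩ := Nat.exists_eq_succ_of_ne_zero hne
          refine ⟨n, Nat.find_min hex (by omega), ?_⟩
          rw [hn] at hspec
          exact hspec
        have hz : p • (p ^ n • y) = 0 := by
          rw [← mul_smul, ← pow_succ', hn2]
        refine (h p hp (p ^ n • y) hn1 hz).mono ?_
        rintro _ ⟨α, rfl⟩
        refine ⟨divPart_map α (AddSubgroup.nsmul_mem _ hy _), ?_⟩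
        rw [← map_nsmul, hz, map_zero]
    · intro x hx hxD
      refine h p hp x ?_ (hx 0).1
      rintro rfl
      exact hxD (AddSubgroup.zero_mem _)
  tfae_have 4 → 3 := by
    intro h p hp x hx0 hpx
    obtain ⟨ha, hb, hc⟩ := h p hp
    by_cases hinf : ∀ k : ℕ, x ∈ socleHeight A p k
    · by_cases hxD : x ∈ divPart A p
      · have hD : divPart A p ≠ ⊥ := by
          intro hbot
          rw [hbot] at hxD
          exact hx0 ((AddSubgroup.mem_bot).mp hxD)
        exact (hb.resolve_left hD).mono (divPart_subset_endOrbit hp hx0 hpx)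
      · exact hc x hinf hxD
    · push Not at hinf
      classical
      have h0 : x ∈ socleHeight A p 0 := ⟨hpx, x, by simp⟩
      have hspec := Nat.find_spec hinf
      have hne : Nat.find hinf ≠ 0 := by
        intro h
        rw [h] at hspec
        exact hspec h0
      obtain ⟨k, hk⟩ := Nat.exists_eq_succ_of_ne_zero hne
      have hk1 : x ∈ socleHeight A p k := by
        have := Nat.find_min hinf (m := k) (by omega)
        exact not_not.mp this
      rw [hk] at hspec
      refine (ha k ⟨x, hk1, hspec⟩).mono (socleHeight_subset_endOrbit hp hk1 ?_)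
      rintro ⟨y, hy⟩
      exact hspec ⟨hpx, y, hy⟩
  tfae_finish

end Pool.Agent.Results.MP_ef4983_al.AbelianDiscriminating
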